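import Mathlib
import Pool.Agent.Q34.A4

set_option autoImplicit false

namespace Pool.Agent.Results.MP_8d9088_nt.Full

open Finset Pool.Agent.Helper857.Pad Pool.Agent.Helper857.W Pool.Agent.Q34

/-- rising factorial `(a)_k = a (a+1) ... (a+k-1)` -/
def poch (a : ℚ) (k : ℕ) : ℚ := ∏ i ∈ range k, (a + i)

/-- `S(N) = ∑_{k=0}^{N} (4k+1) ((1/2)_k / k!)^4` -/
def S (N : ℕ) : ℚ :=
  ∑ k ∈ range (N + 1), (4 * (k : ℚ) + 1) * (poch (1 / 2) k / ((k.factorial : ℕ) : ℚ)) ^ 4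

/-- For every prime `p > 3` and every `r ≥ 1`,
`S((p^r-1)/2) ≡ p^r + (7/6) B_{p-3} p^{r+3} (mod p^{r+4})`. -/
theorem result (p r : ℕ) (hp : p.Prime) (h3 : 3 < p) (hr : 1 ≤ r) :
    Cong p (r + 4) (S ((p ^ r - 1) / 2))
      ((p : ℚ) ^ r + 7 / 6 * bernoulli (p - 3) * (p : ℚ) ^ (r + 3)) := by
  have : Fact p.Prime := ⟨hp⟩
  have hodd : p % 2 = 1 := by
    rcases hp.eq_two_or_odd with h | h <;> omega
  have h5 : 5 ≤ p := by
    by_contra hlt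
    have : p ≠ 4 := by omega
    omega
  have hpa : (p ^ r) % 2 = 1 := Nat.odd_iff.mp ((Nat.odd_iff.mpr hodd).pow)
  obtain ⟨R, hR⟩ : ∃ R, 2 * R + 1 = p ^ r := ⟨p ^ r / 2, by omega⟩
  have hS : S ((p ^ r - 1) / 2) = A4.S R := by
    unfold S A4.S
    rw [show (p ^ r - 1) / 2 = R by omega]
    refine sum_congr rfl fun k _ => ?_
    rw [A4.be_rf]
    rfl
  have m (n : ℕ) : ((n:ℕ):ℚ) ∈ Zp p := nat_mem n
  have n3 : ¬ p ∣ 3 := fun h => absurd (Nat.le_of_dvd (by norm_num) h) (by omega)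
  have n2 : ¬ p ∣ 2 := fun h => absurd (Nat.le_of_dvd (by norm_num) h) (by omega)
  have n12 : ¬ p ∣ 12 := by
    intro h
    rw [show 12 = 2 * (2 * 3) by norm_num, hp.dvd_mul] at h
    rcases h with h | h
    · exact n2 h
    · rw [hp.dvd_mul] at h
      exact h.elim n2 n3
  have cr := classred (p := p) hr hR (by omega)
  have f := A4.fin5' (p := p) hr hR h5
  have hb := harm3 (p := p) h5
  have key : I p 4 (A4.S R / ((2 * R + 1 : ℕ) : ℚ) - (1 + 7 / 6 * bernoulli (p - 3) * (p : ℚ) ^ 3)) := by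
    apply I.cancel n12
    have e : ((12 : ℕ) : ℚ) * (A4.S R / ((2 * R + 1 : ℕ) : ℚ) - (1 + 7 / 6 * bernoulli (p - 3) * (p : ℚ) ^ 3)) =
        (12 * (A4.S R / ((2 * R + 1 : ℕ) : ℚ) - 1) + 7 * HH ((2*R+1:ℕ):ℚ) R) -
        7 * (HH ((2*R+1:ℕ):ℚ) R - (p:ℚ)^3 * ∑ j ∈ Icc 1 ((p-1)/2), 1/(j:ℚ)^3) -
        7 * ((p:ℚ)^3 * (∑ j ∈ Icc 1 ((p-1)/2), 1/(j:ℚ)^3 + 2 * bernoulli (p-3))) := by
      push_cast; ring
    rw [e]
    refine (f.sub (I.mem_mul (by exact_mod_cast m 7) cr)).sub (I.mem_mul (by exact_mod_cast m 7) ?_)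
    exact (I.p_pow 3).mul hb
  apply Red.cong_of_I
  rw [hS]
  have hP : ((2 * R + 1 : ℕ) : ℚ) = (p : ℚ) ^ r := by rw [hR]; push_cast; ring
  have hP0 : (p : ℚ) ^ r ≠ 0 := pow_ne_zero _ (by exact_mod_cast hp.ne_zero)
  rw [hP] at key
  have k2 := (I.p_pow (p := p) r).mul key
  have e : (p : ℚ) ^ r * (A4.S R / (p : ℚ) ^ r - (1 + 7 / 6 * bernoulli (p - 3) * (p : ℚ) ^ 3)) =
      A4.S R - ((p : ℚ) ^ r + 7 / 6 * bernoulli (p - 3) * (p : ℚ) ^ (r + 3)) := by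
    rw [pow_add]
    field_simp
  rwa [e] at k2

end Pool.Agent.Results.MP_8d9088_nt.Full
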